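import Pool.Agent.N500.LPi.Near

/-!
# All number fields of bounded degree at once
-/

set_option autoImplicit false
set_option linter.unusedSectionVars false

open NumberField

namespace Pool.Agent.N500.LPi

open Pool.Agent Pool.Agent.Y890.MV Pool.Agent.Y890.SM Pool.Agent.R349.PC

variable {X : Type} [Fintype X] [DecidableEq X] {ι : Type} [Fintype ι] [DecidableEq ι] {n : ι → ℕ}

theorem htLe_map {K K' : Type} [Field K] [NumberField K] [Field K'] [NumberField K'] (e : K ≃+* K') {T : ℝ} {x : K}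
    (h : Y120.HtLe K T x) : Y120.HtLe K' T (e x) := by
  obtain ⟨a, b, hb, hab, hx⟩ := R437.Met.Tors.isPt_of h
  refine R437.Met.Tors.htLe_of ⟨RingOfIntegers.mapRingEquiv e a, RingOfIntegers.mapRingEquiv e b, ?_, fun φ => ?_, ?_⟩
  · rw [Ne, map_eq_zero_iff _ (RingOfIntegers.mapRingEquiv e).injective]
    exact hb
  · exact hab (φ.comp (e : K →+* K'))
  · rw [hx, map_div₀]
    rfl

theorem nearE_transport (F : SympFam X n) {K K' : Type} [Field K] [NumberField K] [Field K'] [NumberField K']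
    (e : K ≃+* K') (io : K →+* ℂ) (io' : K' →+* ℂ) (h : ∀ x, io' (e x) = io x) {L : Set ℂ} {τ : ℝ} {E : Set (X → ℂ)}
    (H : NearE F K' io' L τ E) : NearE F K io L τ E := by
  intro ξ hξ hξE Λ _ g hg k C
  obtain ⟨T₁, hT₁⟩ := H ξ hξ hξE Λ g hg k C
  refine ⟨T₁, fun T hT s hs => ?_⟩
  have h1 := hT₁ T hT (fun j => e (s j)) (fun j => ⟨htLe_map e (hs j).1, by rw [h]; exact (hs j).2⟩)
  have hx : (fun j => io' (e (s j))) = fun j => io (s j) := funext fun j => h _
  rw [hx] at h1
  obtain ⟨h1, h2⟩ := h1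
  refine ⟨h1, fun c hc h0 Y hY => ?_⟩
  have hp : ∀ v Y, pol io' (fun l => RingOfIntegers.mapRingEquiv e (c v l)) Y = pol io (c v) Y := by
    intro v Y
    unfold pol
    refine Finset.sum_congr rfl fun l _ => ?_
    rw [RingOfIntegers.mapRingEquiv_apply, h]
  have h3 := h2 (fun v l => RingOfIntegers.mapRingEquiv e (c v l))
    (fun v l φ => hc v l (φ.comp (e : K →+* K'))) (by
      rw [← h0]
      exact Finset.sum_congr rfl fun v _ => by rw [hp]) Y hY
  rw [← h3]
  exact Finset.sum_congr rfl fun v _ => by rw [hp]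

/-- the algebraic numbers -/
abbrev AlgN : Type := {a : ℂ // IsAlgebraic ℚ a}

instance (a : AlgN) : NumberField (IntermediateField.adjoin ℚ {(a : ℂ)}) := by
  have h1 : FiniteDimensional ℚ (IntermediateField.adjoin ℚ {(a : ℂ)}) :=
    IntermediateField.adjoin.finiteDimensional a.2.isIntegral
  exact { to_charZero := inferInstance, to_finiteDimensional := by convert h1 }

theorem exists_equiv (K : Type) [Field K] [NumberField K] (io : K →+* ℂ) :
    ∃ (a : AlgN) (e : K ≃ₐ[ℚ] IntermediateField.adjoin ℚ {(a : ℂ)}), ∀ x, ((e x : _) : ℂ) = io x := by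
  obtain ⟨θ, hθ⟩ := Field.exists_primitive_element ℚ K
  set f : K →ₐ[ℚ] ℂ := io.toRatAlgHom with hf
  have h1 : f.fieldRange = IntermediateField.adjoin ℚ {io θ} := by
    rw [AlgHom.fieldRange_eq_map, ← hθ, IntermediateField.adjoin_map, Set.image_singleton]
    rfl
  exact ⟨⟨io θ, io_alg' io θ⟩, (AlgEquiv.ofInjectiveField f).trans (IntermediateField.equivOfEq h1), fun x => rfl⟩

/-- **All number fields of degree at most `d` at once.** -/
theorem nearAll [Nonempty X] (F : SympFam X n) (L : Set ℂ) (hL : L.Countable) :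
    (∀ (d : ℕ) (τ : ℝ), 0 < τ → ∃ E : Set (X → ℂ),
      dimH E ≤ ENNReal.ofReal (2 * (d : ℝ) * ((Fintype.card X : ℝ) - 1) / τ) ∧
      ∀ (K : Type) [Field K] [NumberField K], Module.finrank ℚ K ≤ d → ∀ io : K →+* ℂ, NearE F K io L τ E) ∧
    (Fintype.card X = 1 → ∃ E : Set (X → ℂ), dimH E = 0 ∧
      ∀ (K : Type) [Field K] [NumberField K] (io : K →+* ℂ) (τ : ℝ), 0 < τ → NearE F K io L τ E) := by
  classical
  have hcount : Countable AlgN := (Algebraic.countable ℚ ℂ).to_subtype
  constructor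
  · intro d τ hτ
    choose E hE hE' using fun a : AlgN => near1 F (IntermediateField.adjoin ℚ {(a : ℂ)})
      (algebraMap (IntermediateField.adjoin ℚ {(a : ℂ)}) ℂ) L hL τ hτ
    refine ⟨⋃ a ∈ {a : AlgN | Module.finrank ℚ (IntermediateField.adjoin ℚ {(a : ℂ)}) ≤ d}, E a, ?_,
      fun K _ _ hK io => ?_⟩
    · rw [dimH_bUnion (Set.to_countable _)]
      refine iSup₂_le fun a ha => (hE a).trans (ENNReal.ofReal_le_ofReal ?_)
      have h1 : (1 : ℝ) ≤ (Fintype.card X : ℝ) := by exact_mod_cast Fintype.card_pos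
      have h2 : (Module.finrank ℚ (IntermediateField.adjoin ℚ {(a : ℂ)}) : ℝ) ≤ d := by exact_mod_cast ha
      refine div_le_div_of_nonneg_right ?_ hτ.le
      exact mul_le_mul_of_nonneg_right (mul_le_mul_of_nonneg_left h2 (by norm_num)) (by linarith)
    · obtain ⟨a, e, he⟩ := exists_equiv K io
      have hfr : Module.finrank ℚ (IntermediateField.adjoin ℚ {(a : ℂ)}) ≤ d := by
        rw [← e.toLinearEquiv.finrank_eq]
        exact hK
      refine nearE_transport F e.toRingEquiv io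
        (algebraMap (IntermediateField.adjoin ℚ {(a : ℂ)}) ℂ) (fun x => he x) ?_
      intro ξ hξ hξE
      exact hE' a ξ hξ fun hmem => hξE (Set.mem_iUnion₂.2 ⟨a, hfr, hmem⟩)
  · intro hX
    choose E hE hE' using fun a : AlgN => (near F (IntermediateField.adjoin ℚ {(a : ℂ)})
      (algebraMap (IntermediateField.adjoin ℚ {(a : ℂ)}) ℂ) L hL).2 hX
    refine ⟨⋃ a, E a, ?_, fun K _ _ io τ hτ => ?_⟩
    · refine le_antisymm ?_ bot_le
      rw [dimH_iUnion]
      exact iSup_le fun a => (hE a).le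
    · obtain ⟨a, e, he⟩ := exists_equiv K io
      refine nearE_transport F e.toRingEquiv io
        (algebraMap (IntermediateField.adjoin ℚ {(a : ℂ)}) ℂ) (fun x => he x) ?_
      intro ξ hξ hξE
      exact hE' a τ hτ ξ hξ fun hmem => hξE (Set.mem_iUnion.2 ⟨a, hmem⟩)

end Pool.Agent.N500.LPi
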