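import Pool.Agent.R349.PerConst

/-!
# Points of the torsor of the periods over algebraically closed subfields of `ℂ`, and the consequences for relations
which hold on a whole fibre of the torsor (adapted from `Pool.Agent.R349.PC.transc`)
-/

set_option autoImplicit false
set_option linter.unusedSectionVars false

open NumberField Filter Matrix MvPolynomial

namespace Pool.Agent.N500.LPi

open Pool.Agent Pool.Agent.Y890.MV Pool.Agent.Y890.SM Pool.Agent.R349.PC

variable {X : Type} [Fintype X] [DecidableEq X] {ι : Type} [Fintype ι] [DecidableEq ι] {n : ι → ℕ}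

/-- an algebraically closed subfield contains the algebraic numbers -/
theorem alg_mem (M : Subfield ℂ) [IsAlgClosed M] {a : ℂ} (ha : IsAlgebraic ℚ a) : a ∈ M := by
  have h1 : IsAlgebraic M a := by
    obtain ⟨p, hp, hpa⟩ := ha
    refine ⟨p.map (algebraMap ℚ M), (Polynomial.map_ne_zero_iff (algebraMap ℚ M).injective).2 hp, ?_⟩
    rw [Polynomial.aeval_map_algebraMap]
    exact hpa
  have h2 := minpoly.irreducible h1.isIntegral
  have h3 := IsAlgClosed.degree_eq_one_of_irreducible M h2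
  obtain ⟨b, hb⟩ := minpoly.mem_range_of_degree_eq_one M a h3
  rw [← hb]
  exact b.2

theorem io_alg' {K : Type} [Field K] [NumberField K] (io : K →+* ℂ) (a : K) : IsAlgebraic ℚ (io a) := by
  have h1 : IsAlgebraic ℚ a := Algebra.IsAlgebraic.isAlgebraic a
  obtain ⟨p, hp, hpa⟩ := h1
  refine ⟨p, hp, ?_⟩
  have h2 := congrArg io hpa
  rw [map_zero, Polynomial.aeval_def, Polynomial.hom_eval₂] at h2
  rw [Polynomial.aeval_def, ← h2]
  congr 1
  exact RingHom.ext fun q => by simp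

/-- the values of the polarization are algebraic -/
theorem Qx_alg (F : SympFam X n) {K : Type} [Field K] [NumberField K] (io : K →+* ℂ) (e : X → K) (i : ι)
    (a b : Fin (n i)) : IsAlgebraic ℚ (F.Qx (fun j => io (e j)) i a b) := by
  set x : X → ℂ := fun j => io (e j) with hx
  have h1 : F.Qx x i a b = MvPolynomial.aeval x (F.Q i a b) := rfl
  rw [h1]
  have h2 : MvPolynomial.aeval x (F.Q i a b) =
      algebraMap Y890.SP.Qbar ℂ (MvPolynomial.eval (fun j => Y890.SP.ioQ io (e j)) (F.Q i a b)) := by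
    rw [MvPolynomial.aeval_def, MvPolynomial.eval, MvPolynomial.coe_eval₂Hom, MvPolynomial.eval₂_comp_left]
    rfl
  rw [h2]
  exact mem_algebraicClosure_iff.1 (MvPolynomial.eval (fun j => Y890.SP.ioQ io (e j)) (F.Q i a b)).2

/-- the value of a polynomial with complex coefficients -/
noncomputable def cpol {k : ℕ} (g : (Ix n → Fin (k + 1)) → ℂ) (Y : ∀ i, Matrix (Fin (n i)) (Fin (n i)) ℂ) : ℂ :=
  ∑ l : Ix n → Fin (k + 1), g l * ∏ y : Ix n, (Y y.1 y.2.1 y.2.2) ^ (l y : ℕ)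

/-- points of the torsor over an algebraically closed field -/
theorem exists_fib (M : Subfield ℂ) [IsAlgClosed M] (F : SympFam X n) {K : Type} [Field K] [NumberField K]
    (io : K →+* ℂ) (e : X → K) {μ : ℂ} (hμ : μ ∈ M) {Y' : ∀ i, Matrix (Fin (n i)) (Fin (n i)) ℂ}
    (hY' : (Y', μ) ∈ F.torsor (fun j => io (e j))) {k : ℕ} (g : (Ix n → Fin (k + 1)) → ℂ) (hg : ∀ l, g l ∈ M)
    (hne : cpol g Y' ≠ 0) :
    ∃ Y : ∀ i, Matrix (Fin (n i)) (Fin (n i)) ℂ, (∀ i a b, Y i a b ∈ M) ∧ (Y, μ) ∈ F.torsor (fun j => io (e j)) ∧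
      cpol g Y ≠ 0 := by
  classical
  set x : X → ℂ := fun j => io (e j) with hx
  set y : Option (Ix n) → ℂ := fun o => o.elim (cpol g Y')⁻¹ (fun r => Y' r.1 r.2.1 r.2.2) with hy
  obtain ⟨y₀, hy₀⟩ := exists_pt' M y
  set Y₁ : ∀ i, Matrix (Fin (n i)) (Fin (n i)) ℂ := fun i a b => algebraMap M ℂ (y₀ (some ⟨i, (a, b)⟩)) with hY₁
  set Rg := (MvPolynomial.map (algebraMap M ℂ) : MvPolynomial (Option (Ix n)) M →+* _).range with hRg
  have hX : ∀ o, (MvPolynomial.X o : MvPolynomial (Option (Ix n)) ℂ) ∈ Rg := fun o => ⟨MvPolynomial.X o, by simp⟩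
  have hC : ∀ w : ℂ, w ∈ M → (C w : MvPolynomial (Option (Ix n)) ℂ) ∈ Rg := by
    intro w hw
    refine ⟨C (⟨w, hw⟩ : M), ?_⟩
    simp [MvPolynomial.map_C]
    rfl
  refine ⟨Y₁, fun i a b => (y₀ (some ⟨i, (a, b)⟩)).2, ⟨hY'.1, fun i => ?_⟩, ?_⟩
  · ext a b
    set p : MvPolynomial (Option (Ix n)) ℂ :=
      (∑ u, (∑ v, MvPolynomial.X (some ⟨i, (a, v)⟩) * C (F.Qx x i v u)) * MvPolynomial.X (some ⟨i, (b, u)⟩)) -
        C (μ ^ F.w i * F.Jx i a b) with hp
    have hpR : p ∈ Rg := by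
      refine Subring.sub_mem _ (Subring.sum_mem _ fun u _ => Subring.mul_mem _ (Subring.sum_mem _ fun v _ =>
        Subring.mul_mem _ (hX _) ?_) (hX _)) ?_
      · exact hC _ (alg_mem M (Qx_alg F io e i v u))
      · refine hC _ (M.mul_mem (M.pow_mem hμ _) (alg_mem M ?_))
        show IsAlgebraic ℚ (algebraMap ℚ ℂ (F.J i a b))
        exact isAlgebraic_algebraMap _
    have hev : ∀ (w : Option (Ix n) → ℂ), eval w p =
        (∑ u, (∑ v, w (some ⟨i, (a, v)⟩) * F.Qx x i v u) * w (some ⟨i, (b, u)⟩)) - μ ^ F.w i * F.Jx i a b := by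
      intro w
      rw [hp, map_sub, map_sum, eval_C]
      congr 1
      refine Finset.sum_congr rfl fun u _ => ?_
      rw [map_mul, map_sum, eval_X]
      congr 1
      refine Finset.sum_congr rfl fun v _ => ?_
      rw [map_mul, eval_X, eval_C]
    have h0 : eval y p = 0 := by
      rw [hev]
      have h1 := congrFun (congrFun (hY'.2 i) a) b
      rw [Matrix.mul_apply] at h1
      rw [sub_eq_zero]
      refine Eq.trans ?_ h1
      refine Finset.sum_congr rfl fun u _ => ?_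
      rw [Matrix.mul_apply, Matrix.transpose_apply]
      rfl
    have h2 := hy₀ p hpR h0
    rw [hev, sub_eq_zero] at h2
    rw [Matrix.mul_apply]
    refine Eq.trans ?_ h2
    refine Finset.sum_congr rfl fun u _ => ?_
    rw [Matrix.mul_apply, Matrix.transpose_apply]
    rfl
  · set p : MvPolynomial (Option (Ix n)) ℂ :=
      MvPolynomial.X none * (∑ l : Ix n → Fin (k + 1), C (g l) * ∏ r : Ix n, MvPolynomial.X (some r) ^ (l r : ℕ)) - C 1
      with hp
    have hpR : p ∈ Rg := by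
      refine Subring.sub_mem _ (Subring.mul_mem _ (hX _) (Subring.sum_mem _ fun l _ => Subring.mul_mem _ (hC _ (hg l))
        (Subring.prod_mem _ fun r _ => Subring.pow_mem _ (hX _) _))) (hC _ M.one_mem)
    have hev : ∀ (w : Option (Ix n) → ℂ), eval w p =
        w none * (∑ l : Ix n → Fin (k + 1), g l * ∏ r : Ix n, w (some r) ^ (l r : ℕ)) - 1 := by
      intro w
      rw [hp, map_sub, map_mul, map_sum, eval_C, eval_X]
      congr 2
      refine Finset.sum_congr rfl fun l _ => ?_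
      rw [map_mul, eval_C, map_prod]
      congr 1
      refine Finset.prod_congr rfl fun r _ => ?_
      rw [map_pow, eval_X]
    have h0 : eval y p = 0 := by
      rw [hev, sub_eq_zero]
      exact inv_mul_cancel₀ hne
    have h2 := hy₀ p hpR h0
    rw [hev, sub_eq_zero] at h2
    intro h3
    have h4 : (∑ l : Ix n → Fin (k + 1), g l * ∏ r : Ix n, (algebraMap M ℂ (y₀ (some r))) ^ (l r : ℕ)) =
        cpol g Y₁ := rfl
    rw [h4, h3, mul_zero] at h2
    exact zero_ne_one h2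

theorem sum_pol {B : Type} [Fintype B] {k : ℕ} {K : Type} [Field K] [NumberField K] (io : K →+* ℂ) (ρ : B → ℂ)
    (c : B → (Ix n → Fin (k + 1)) → 𝓞 K) (Y : ∀ i, Matrix (Fin (n i)) (Fin (n i)) ℂ) :
    ∑ b, ρ b * pol io (c b) Y = cpol (fun l => ∑ b, ρ b * io (c b l : K)) Y := by
  unfold pol cpol
  simp_rw [Finset.mul_sum, Finset.sum_mul]
  rw [Finset.sum_comm]
  refine Finset.sum_congr rfl fun l _ => Finset.sum_congr rfl fun b _ => ?_
  ring

/-- **Linear disjointness.** -/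
theorem disj (M : Subfield ℂ) [IsAlgClosed M] (hpi : (Real.pi : ℂ) ∈ M) (F : SympFam X n) {K : Type} [Field K]
    [NumberField K] (io : K →+* ℂ) (e : X → K) (he : (fun j => io (e j)) ∈ F.U) {A B : Type} [Fintype A] [Fintype B]
    (ζ : A → ℂ) (hζ : LinearIndependent M ζ) (ρ : B → ℂ) (hρ : ∀ b, ρ b ∈ M) {k : ℕ}
    (c : A → B → (Ix n → Fin (k + 1)) → 𝓞 K)
    (H : ∀ Y, (Y, tpi) ∈ F.torsor (fun j => io (e j)) → ∑ a, ζ a * ∑ b, ρ b * pol io (c a b) Y = 0) (a₀ : A) :
    ∑ b, ρ b * pol io (c a₀ b) (fun i => F.P i fun j => io (e j)) = 0 := by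
  classical
  by_contra hne
  have hI : Complex.I ∈ M := alg_mem M ⟨Polynomial.X ^ 2 + 1, by
    intro h
    have h1 := congrArg (Polynomial.eval 0) h
    simp at h1, by simp⟩
  have h2M : (2 : ℂ) ∈ M := by
    simp
  have htpi : tpi ∈ M := M.mul_mem (M.mul_mem h2M hpi) hI
  rw [sum_pol] at hne
  have hcoef : ∀ (a : A) (l : Ix n → Fin (k + 1)), (∑ b, ρ b * io (c a b l : K)) ∈ M := fun a l =>
    sum_mem fun b _ => M.mul_mem (hρ b) (alg_mem M (io_alg' io _))
  obtain ⟨Y, hYM, hYt, hYne⟩ := exists_fib M F io e htpi (F.mem he) _ (hcoef a₀) hne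
  have h1 := H Y hYt
  have hval : ∀ a, (∑ b, ρ b * pol io (c a b) Y) ∈ M := by
    intro a
    rw [sum_pol]
    exact sum_mem fun l _ => M.mul_mem (hcoef a l) (prod_mem fun y _ => M.pow_mem (hYM _ _ _) _)
  have h2 := Fintype.linearIndependent_iff.1 hζ (fun a => ⟨_, hval a⟩) (by
    rw [← h1]
    refine Finset.sum_congr rfl fun a _ => ?_
    rw [mul_comm (ζ a)]
    rfl) a₀
  apply hYne
  rw [← sum_pol]
  exact congrArg Subtype.val h2

/-- the algebraic numbers as a subfield -/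
noncomputable def Qb : Subfield ℂ := (algebraicClosure ℚ ℂ).toSubfield

instance : IsAlgClosed Qb := (algebraicClosure.isAlgClosure (F := ℚ) (E := ℂ)).isAlgClosed

theorem pow_add_neg_pow (s : ℂ) (N : ℕ) (R : Subring ℂ) (hs : s ^ 2 ∈ R) : s ^ N + (-s) ^ N ∈ R := by
  rcases Nat.even_or_odd N with h | h
  · obtain ⟨m, hm⟩ := h
    rw [show N = 2 * m by omega, pow_mul, pow_mul, neg_sq]
    exact R.add_mem (R.pow_mem hs m) (R.pow_mem hs m)
  · rw [h.neg_pow, add_neg_cancel]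
    exact R.zero_mem

/-- **No new numbers.** -/
theorem no_new (R : Subring ℂ) (hR : ∀ a : ℂ, IsAlgebraic ℚ a → a ∈ R) (hpi : (Real.pi : ℂ) ∈ R) (F : SympFam X n)
    {K : Type} [Field K] [NumberField K] (io : K →+* ℂ) (e : X → K) (he : (fun j => io (e j)) ∈ F.U) {B : Type}
    [Fintype B] (ρ : B → ℂ) (hρ : ∀ b, ρ b ∈ R) {k : ℕ} (c : B → (Ix n → Fin (k + 1)) → 𝓞 K) (q : 𝓞 K) (hq : q ≠ 0)
    (z : ℂ) (H : ∀ Y, (Y, tpi) ∈ F.torsor (fun j => io (e j)) → io (q : K) * z = ∑ b, ρ b * pol io (c b) Y) :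
    z ∈ R := by
  classical
  obtain ⟨s, hs⟩ := IsAlgClosed.exists_pow_nat_eq tpi (n := 2) two_pos
  have hs0 : s ≠ 0 := by
    intro h
    rw [h, zero_pow two_ne_zero] at hs
    exact tpi_ne hs.symm
  have h1 := scale_torsor F (F.mem he) (r := s⁻¹) (inv_ne_zero hs0)
  rw [inv_pow, hs, inv_mul_cancel₀ tpi_ne] at h1
  obtain ⟨Y, hYM, hYt, -⟩ := exists_fib Qb F io e Qb.one_mem h1 (k := 0) (fun _ => 1) (fun _ => Qb.one_mem) (by
    unfold cpol
    simp)
  have hYR : ∀ i a b, Y i a b ∈ R := fun i a b => hR _ (mem_algebraicClosure_iff.1 (hYM i a b))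
  have key : ∀ r : ℂ, r ^ 2 = tpi → io (q : K) * z = ∑ b, ∑ l : Ix n → Fin (k + 1),
      ρ b * io (c b l : K) * (∏ y : Ix n, (Y y.1 y.2.1 y.2.2) ^ (l y : ℕ)) * r ^ (∑ y : Ix n, F.w y.1 * (l y : ℕ)) := by
    intro r hr
    have hr0 : r ≠ 0 := by
      intro h
      rw [h, zero_pow two_ne_zero] at hr
      exact tpi_ne hr.symm
    have h2 := scale_torsor F hYt (r := r) hr0
    rw [hr, mul_one] at h2
    rw [H _ h2]
    refine Finset.sum_congr rfl fun b _ => ?_
    rw [pol, Finset.mul_sum]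
    refine Finset.sum_congr rfl fun l _ => ?_
    have h3 : (∏ y : Ix n, ((fun i => r ^ F.w i • Y i) y.1 y.2.1 y.2.2) ^ (l y : ℕ)) =
        (∏ y : Ix n, (Y y.1 y.2.1 y.2.2) ^ (l y : ℕ)) * r ^ (∑ y : Ix n, F.w y.1 * (l y : ℕ)) := by
      rw [← Finset.prod_pow_eq_pow_sum, ← Finset.prod_mul_distrib]
      refine Finset.prod_congr rfl fun y _ => ?_
      show (r ^ F.w y.1 * Y y.1 y.2.1 y.2.2) ^ (l y : ℕ) = _
      rw [mul_pow, ← pow_mul, mul_comm]
    rw [h3]
    ring
  have h2 := key s hs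
  have h3 := key (-s) (by rw [neg_sq, hs])
  have h4 : (2 * io (q : K)) * z = ∑ b, ∑ l : Ix n → Fin (k + 1),
      ρ b * io (c b l : K) * (∏ y : Ix n, (Y y.1 y.2.1 y.2.2) ^ (l y : ℕ)) *
        (s ^ (∑ y : Ix n, F.w y.1 * (l y : ℕ)) + (-s) ^ (∑ y : Ix n, F.w y.1 * (l y : ℕ))) := by
    have h5 : (2 * io (q : K)) * z = io (q : K) * z + io (q : K) * z := by ring
    rw [h5]
    nth_rewrite 1 [h2]
    rw [h3, ← Finset.sum_add_distrib]
    refine Finset.sum_congr rfl fun b _ => ?_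
    rw [← Finset.sum_add_distrib]
    refine Finset.sum_congr rfl fun l _ => ?_
    ring
  have hI : Complex.I ∈ R := hR _ ⟨Polynomial.X ^ 2 + 1, by
    intro h
    have h1 := congrArg (Polynomial.eval 0) h
    simp at h1, by simp⟩
  have h2R : (2 : ℂ) ∈ R := by
    simp
  have htpi : s ^ 2 ∈ R := by
    rw [hs]
    exact R.mul_mem (R.mul_mem h2R hpi) hI
  have h5 : (2 * io (q : K)) * z ∈ R := by
    rw [h4]
    refine R.sum_mem fun b _ => R.sum_mem fun l _ => ?_
    refine R.mul_mem (R.mul_mem (R.mul_mem (hρ b) (hR _ (io_alg' io _))) ?_) (pow_add_neg_pow s _ R htpi)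
    exact R.prod_mem fun y _ => R.pow_mem (hYR _ _ _) _
  have hq' : io (q : K) ≠ 0 := by
    rw [Ne, map_eq_zero]
    exact_mod_cast hq
  have h6 : IsAlgebraic ℚ (2 * io (q : K))⁻¹ := by
    have : (2 * io (q : K))⁻¹ = io ((2 * (q : K))⁻¹) := by
      rw [map_inv₀, map_mul, map_ofNat]
    rw [this]
    exact io_alg' io _
  have h7 : z = (2 * io (q : K))⁻¹ * ((2 * io (q : K)) * z) := by
    field_simp
  rw [h7]
  exact R.mul_mem (hR _ h6) h5

end Pool.Agent.N500.LPi
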