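import Pool.Agent.N500.LPi.Fib

/-!
# Homogeneous relations
(the idea to use the algebraic points of the torsor with multiplier one for homogeneous relations is that of
`MP_2cf66e_nt.LindemannWeierstrassRatios`)
-/

set_option autoImplicit false
set_option linter.unusedSectionVars false

open NumberField Filter Matrix MvPolynomial

namespace Pool.Agent.N500.LPi

open Pool.Agent Pool.Agent.Y890.MV Pool.Agent.Y890.SM Pool.Agent.R349.PC

variable {X : Type} [Fintype X] [DecidableEq X] {ι : Type} [Fintype ι] [DecidableEq ι] {n : ι → ℕ}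

theorem cpol_scale (w : ι → ℕ) {k : ℕ} (g : (Ix n → Fin (k + 1)) → ℂ) (d : ℕ)
    (hd : ∀ l, g l ≠ 0 → ∑ y : Ix n, w y.1 * (l y : ℕ) = d) (r : ℂ) (Y : ∀ i, Matrix (Fin (n i)) (Fin (n i)) ℂ) :
    cpol g (fun i => r ^ w i • Y i) = r ^ d * cpol g Y := by
  unfold cpol
  rw [Finset.mul_sum]
  refine Finset.sum_congr rfl fun l _ => ?_
  by_cases hl : g l = 0
  · rw [hl]
    ring
  · have h3 : (∏ y : Ix n, ((fun i => r ^ w i • Y i) y.1 y.2.1 y.2.2) ^ (l y : ℕ)) =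
        (∏ y : Ix n, (Y y.1 y.2.1 y.2.2) ^ (l y : ℕ)) * r ^ (∑ y : Ix n, w y.1 * (l y : ℕ)) := by
      rw [← Finset.prod_pow_eq_pow_sum, ← Finset.prod_mul_distrib]
      refine Finset.prod_congr rfl fun y _ => ?_
      show (r ^ w y.1 * Y y.1 y.2.1 y.2.2) ^ (l y : ℕ) = _
      rw [mul_pow, ← pow_mul, mul_comm]
    rw [h3, hd l hl]
    ring

/-- **Linear disjointness, homogeneous relations.** -/
theorem disj_hom (M : Subfield ℂ) [IsAlgClosed M] (F : SympFam X n) {K : Type} [Field K]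
    [NumberField K] (io : K →+* ℂ) (e : X → K) (he : (fun j => io (e j)) ∈ F.U) {A B : Type} [Fintype A] [Fintype B]
    (ζ : A → ℂ) (hζ : LinearIndependent M ζ) (ρ : B → ℂ) (hρ : ∀ b, ρ b ∈ M) {k : ℕ}
    (c : A → B → (Ix n → Fin (k + 1)) → 𝓞 K) (d : ℕ)
    (hd : ∀ a b l, c a b l ≠ 0 → ∑ y : Ix n, F.w y.1 * (l y : ℕ) = d)
    (H : ∀ Y, (Y, tpi) ∈ F.torsor (fun j => io (e j)) → ∑ a, ζ a * ∑ b, ρ b * pol io (c a b) Y = 0) (a₀ : A) :
    ∑ b, ρ b * pol io (c a₀ b) (fun i => F.P i fun j => io (e j)) = 0 := by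
  classical
  by_contra hne
  obtain ⟨s, hs⟩ := IsAlgClosed.exists_pow_nat_eq tpi (n := 2) two_pos
  have hs0 : s ≠ 0 := by
    intro h
    rw [h, zero_pow two_ne_zero] at hs
    exact tpi_ne hs.symm
  have h1 := scale_torsor F (F.mem he) (r := s⁻¹) (inv_ne_zero hs0)
  rw [inv_pow, hs, inv_mul_cancel₀ tpi_ne] at h1
  have hcoef : ∀ (a : A) (l : Ix n → Fin (k + 1)), (∑ b, ρ b * io (c a b l : K)) ∈ M := fun a l =>
    sum_mem fun b _ => M.mul_mem (hρ b) (alg_mem M (io_alg' io _))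
  have hdeg : ∀ (a : A) (l : Ix n → Fin (k + 1)), (∑ b, ρ b * io (c a b l : K)) ≠ 0 →
      ∑ y : Ix n, F.w y.1 * (l y : ℕ) = d := by
    intro a l h
    obtain ⟨b, -, hb⟩ := Finset.exists_ne_zero_of_sum_ne_zero h
    refine hd a b l fun h0 => hb ?_
    rw [h0]
    simp
  have hval : ∀ (a : A) (r : ℂ) (Y : ∀ i, Matrix (Fin (n i)) (Fin (n i)) ℂ),
      ∑ b, ρ b * pol io (c a b) (fun i => r ^ F.w i • Y i) = r ^ d * ∑ b, ρ b * pol io (c a b) Y := by
    intro a r Y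
    rw [sum_pol, sum_pol, cpol_scale F.w _ d (hdeg a)]
  have hne' : cpol (fun l => ∑ b, ρ b * io (c a₀ b l : K)) (fun i => s⁻¹ ^ F.w i • F.P i fun j => io (e j)) ≠ 0 := by
    rw [← sum_pol, hval a₀ s⁻¹]
    exact mul_ne_zero (pow_ne_zero _ (inv_ne_zero hs0)) hne
  obtain ⟨Y, hYM, hYt, hYne⟩ := exists_fib M F io e M.one_mem h1 _ (hcoef a₀) hne'
  have h2 := scale_torsor F hYt (r := s) hs0
  rw [hs, mul_one] at h2
  have h3 := H _ h2
  have h4 : ∑ a, ζ a * ∑ b, ρ b * pol io (c a b) Y = 0 := by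
    have h5 : s ^ d * ∑ a, ζ a * ∑ b, ρ b * pol io (c a b) Y = 0 := by
      rw [← h3, Finset.mul_sum]
      refine Finset.sum_congr rfl fun a _ => ?_
      rw [hval a s Y]
      ring
    rcases mul_eq_zero.1 h5 with h6 | h6
    · exact absurd h6 (pow_ne_zero _ hs0)
    · exact h6
  have hvM : ∀ a, (∑ b, ρ b * pol io (c a b) Y) ∈ M := by
    intro a
    rw [sum_pol]
    exact sum_mem fun l _ => M.mul_mem (hcoef a l) (prod_mem fun y _ => M.pow_mem (hYM _ _ _) _)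
  have h5 := Fintype.linearIndependent_iff.1 hζ (fun a => ⟨_, hvM a⟩) (by
    rw [← h4]
    refine Finset.sum_congr rfl fun a _ => ?_
    rw [mul_comm (ζ a)]
    rfl) a₀
  apply hYne
  rw [← sum_pol]
  exact congrArg Subtype.val h5

end Pool.Agent.N500.LPi
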