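import Pool.Agent.R958.PN
import Pool.Agent.N500.LPi.Fib

/-!
# Relations between the periods near a given point and countably many constants
(uses the covering argument of `Pool.Agent.R437.Met.Tors` and `Pool.Agent.R958.PN.cover`)
-/

set_option autoImplicit false
set_option linter.unusedSectionVars false

open NumberField Filter Matrix

namespace Pool.Agent.N500.LPi

open Pool.Agent Pool.Agent.Y890.MV Pool.Agent.Y890.SM Pool.Agent.R349.PC
open Pool.Agent.Y124 (Cov)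

variable {X : Type} [Fintype X] [DecidableEq X] {ι : Type} [Fintype ι] [DecidableEq ι] {n : ι → ℕ}

/-- finitely many constants out of a sequence -/
theorem relg {Λ : Type} [Fintype Λ] {k k' : ℕ} (h : k ≤ k') (f : ℕ → ℂ) (idx : Λ → ℕ)
    (hidx : ∀ v, idx v < k') {K : Type} [Field K] [NumberField K] (io : K →+* ℂ) {T : ℝ} (hT : 1 ≤ T)
    (hTk : ((Fintype.card (Λ × (Ix n → Fin (k + 1))) : ℕ) : ℝ) * T ^ k ≤ T ^ k')
    (c : Λ → (Ix n → Fin (k + 1)) → 𝓞 K) (hc : ∀ v l, Bd k T (c v l)) :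
    ∃ c' : (Ix n → Fin (k' + 1)) → Fin k' → 𝓞 K, (∀ l a (φ : K →+* ℂ), ‖φ (c' l a : K)‖ ≤ T ^ k') ∧
      ∀ Y, poly (fun l a => io (c' l a : K)) (fun a : Fin k' => f (a : ℕ)) Y =
        ∑ v : Λ, f (idx v) * pol io (c v) Y := by
  classical
  set s : Λ × (Ix n → Fin (k + 1)) → (Ix n → Fin (k' + 1)) := fun p => up h p.2 with hs
  set d : Λ × (Ix n → Fin (k + 1)) → Fin k' → 𝓞 K := fun p a =>
    if (a : ℕ) = idx p.1 then c p.1 p.2 else 0 with hd
  have hT0 : (0 : ℝ) ≤ T ^ k := by positivity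
  refine ⟨fun l a => ∑ v, if s v = l then d v a else 0, fun l a φ => ?_, fun Y => ?_⟩
  · refine (reidx_bd s d hT0 ?_ l a φ).trans hTk
    rintro p a φ
    show ‖φ ((if (a : ℕ) = idx p.1 then c p.1 p.2 else 0 : 𝓞 K) : K)‖ ≤ _
    split_ifs
    · exact hc _ _ φ
    · simpa using hT0
  · rw [reidx, Fintype.sum_prod_type]
    refine Finset.sum_congr rfl fun b _ => ?_
    rw [pol, Finset.mul_sum]
    refine Finset.sum_congr rfl fun l _ => ?_
    have e2 : (∑ a : Fin k', f (a : ℕ) * io (d (b, l) a : K)) = f (idx b) * io (c b l : K) := by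
      rw [Finset.sum_eq_single (⟨idx b, hidx b⟩ : Fin k')]
      · show f (idx b) * io ((if idx b = idx b then c b l else 0 : 𝓞 K) : K) = _
        rw [if_pos rfl]
      · intro a _ ha
        show f (a : ℕ) * io ((if (a : ℕ) = idx b then c b l else 0 : 𝓞 K) : K) = 0
        rw [if_neg (fun h => ha (Fin.ext h))]
        simp
      · intro h; exact absurd (Finset.mem_univ _) h
    rw [e2, mul_assoc]
    rfl

/-- the relations of complexity at most `(k, T)` with the constants `g v` between the periods at `x` hold on the whole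
fibre of the torsor -/
def RelOK (F : SympFam X n) (K : Type) [Field K] [NumberField K] (io : K →+* ℂ) (k : ℕ) (T : ℝ) {Λ : Type} [Fintype Λ]
    (g : Λ → ℂ) (x : X → ℂ) : Prop :=
  ∀ c : Λ → (Ix n → Fin (k + 1)) → 𝓞 K, (∀ v l, Bd k T (c v l)) →
    ∑ v, g v * pol io (c v) (fun i => F.P i x) = 0 → ∀ Y, (Y, tpi) ∈ F.torsor x → ∑ v, g v * pol io (c v) Y = 0

/-- the statement for one `τ` -/
def NearE (F : SympFam X n) (K : Type) [Field K] [NumberField K] (io : K →+* ℂ) (L : Set ℂ) (τ : ℝ)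
    (E : Set (X → ℂ)) : Prop :=
  ∀ ξ ∈ F.U, ξ ∉ E → ∀ (Λ : Type) [Fintype Λ] (g : Λ → ℂ), (∀ v, g v ∈ L) → ∀ (k : ℕ) (C : ℝ),
    ∃ T₁ : ℝ, ∀ T : ℝ, T₁ ≤ T → ∀ s : X → K,
      (∀ j, Y120.HtLe K T (s j) ∧ ‖ξ j - io (s j)‖ ≤ C * T ^ (-τ)) →
        (fun j => io (s j)) ∈ F.U ∧ RelOK F K io k T g (fun j => io (s j))

theorem near1 [Nonempty X] (F : SympFam X n) (K : Type) [Field K] [NumberField K] (io : K →+* ℂ) (L : Set ℂ)
    (hL : L.Countable) (τ : ℝ) (hτ : 0 < τ) :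
    ∃ E : Set (X → ℂ),
      dimH E ≤ ENNReal.ofReal (2 * (Module.finrank ℚ K : ℝ) * ((Fintype.card X : ℝ) - 1) / τ) ∧
      NearE F K io L τ E := by
  classical
  obtain ⟨f, hf⟩ := Set.countable_iff_exists_subset_range.1 hL
  obtain ⟨E, hE, h⟩ := R437.Met.Tors.near K io F.U F.isOpen
    (fun k T s => ¬ F.Generic k K io (fun a : Fin k => f (a : ℕ)) T (fun j => io (s j)))
    (fun k T T' s hT1 hTT' hbad hgen => hbad fun c' hc' => hgen c' fun l a φ => (hc' l a φ).trans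
      (pow_le_pow_left₀ (by linarith) hTT' k))
    (max (Module.finrank ℚ K) 1)
    (fun k ε hk hε => by
      obtain ⟨D, C, T₀, hC, H⟩ :=
        R958.PN.cover F k (lt_of_lt_of_le one_pos ((le_max_right _ _).trans hk)) ε hε
      exact ⟨D, C, T₀, hC, fun T hT => H K ((le_max_left _ _).trans hk) io (fun a : Fin k => f (a : ℕ)) T hT⟩)
    τ hτ
  refine ⟨E, hE, fun ξ hξ hξE Λ _ g hg k C => ?_⟩
  choose idx hidx using fun v => hf (hg v)
  obtain ⟨k₀, hk₀⟩ := h ξ hξ hξE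
  set M : ℕ := Fintype.card (Λ × (Ix n → Fin (k + 1))) with hM
  set kk : ℕ := max k₀ (max (k + 1) (∑ v, idx v + 1)) with hkk
  have hkk1 : k + 1 ≤ kk := (le_max_left _ _).trans (le_max_right _ _)
  have hkk2 : ∀ v, idx v < kk := by
    intro v
    have h1 : idx v ≤ ∑ v, idx v := Finset.single_le_sum (fun _ _ => Nat.zero_le _) (Finset.mem_univ v)
    have h2 : ∑ v, idx v + 1 ≤ kk := (le_max_right _ _).trans (le_max_right _ _)
    omega
  obtain ⟨T₁, hT₁⟩ := hk₀ kk (le_max_left _ _) C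
  obtain ⟨r, hr, hrU⟩ := Metric.isOpen_iff.1 F.isOpen ξ hξ
  obtain ⟨T₂, hT₂⟩ := R437.Met.Near.small (C := |C|) hτ hr
  refine ⟨max (max T₁ T₂) (max 1 (M : ℝ)), fun T hT s hs => ?_⟩
  have hTa : T₁ ≤ T := ((le_max_left _ _).trans (le_max_left _ _)).trans hT
  have hTb : T₂ ≤ T := ((le_max_right _ _).trans (le_max_left _ _)).trans hT
  have hT1 : 1 ≤ T := ((le_max_left _ _).trans (le_max_right _ _)).trans hT
  have hTc : (M : ℝ) ≤ T := ((le_max_right _ _).trans (le_max_right _ _)).trans hT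
  have hT0 : 0 ≤ T := by linarith
  have hd : dist ξ (fun j => io (s j)) ≤ |C| * T ^ (-τ) := by
    rw [dist_pi_le_iff (by positivity)]
    intro j
    rw [dist_eq_norm]
    exact (hs j).2.trans (mul_le_mul_of_nonneg_right (le_abs_self C) (by positivity))
  have hin : (fun j => io (s j)) ∈ F.U := by
    apply hrU
    rw [Metric.mem_ball, dist_comm]
    exact hd.trans_lt (hT₂ T hTb)
  refine ⟨hin, fun c hc h0 Y hY => ?_⟩
  have hgen := not_not.1 (hT₁ T hTa s hs)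
  have hTk : ((Fintype.card (Λ × (Ix n → Fin (k + 1))) : ℕ) : ℝ) * T ^ k ≤ T ^ kk := by
    rw [← hM]
    calc (M : ℝ) * T ^ k ≤ T * T ^ k := mul_le_mul_of_nonneg_right hTc (by positivity)
      _ = T ^ (k + 1) := by rw [pow_succ']
      _ ≤ T ^ kk := pow_le_pow_right₀ hT1 hkk1
  obtain ⟨c', hc', hv⟩ := relg (n := n) (k' := kk) (by omega) f idx hkk2 io hT1 hTk c hc
  have hfg : ∀ Y, ∑ v : Λ, f (idx v) * pol io (c v) Y = ∑ v : Λ, g v * pol io (c v) Y := by
    intro Y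
    exact Finset.sum_congr rfl fun v _ => by rw [hidx]
  have h1 := (hgen c' hc').1 (by rw [hv, hfg, h0]) Y hY
  rw [hv, hfg] at h1
  exact h1

theorem near [Nonempty X] (F : SympFam X n) (K : Type) [Field K] [NumberField K] (io : K →+* ℂ) (L : Set ℂ)
    (hL : L.Countable) :
    (∀ τ : ℝ, 0 < τ → ∃ E : Set (X → ℂ),
      dimH E ≤ ENNReal.ofReal (2 * (Module.finrank ℚ K : ℝ) * ((Fintype.card X : ℝ) - 1) / τ) ∧
      NearE F K io L τ E) ∧
    (Fintype.card X = 1 → ∃ E : Set (X → ℂ), dimH E = 0 ∧ ∀ τ : ℝ, 0 < τ → NearE F K io L τ E) := by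
  classical
  refine ⟨fun τ hτ => near1 F K io L hL τ hτ, fun hX => ?_⟩
  have h1 := fun m : ℕ => near1 F K io L hL (1 / ((m : ℝ) + 1)) (by positivity)
  choose E hE hE' using h1
  refine ⟨⋃ m, E m, ?_, fun τ hτ ξ hξ hξE Λ _ g hg k C => ?_⟩
  · refine le_antisymm ?_ bot_le
    rw [dimH_iUnion]
    refine iSup_le fun m => (hE m).trans (le_of_eq ?_)
    rw [hX]
    simp
  · obtain ⟨m, hm⟩ := exists_nat_one_div_lt hτ
    obtain ⟨T₁, hT₁⟩ := hE' m ξ hξ (fun hmem => hξE (Set.mem_iUnion.2 ⟨m, hmem⟩)) Λ g hg k |C|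
    refine ⟨max T₁ 1, fun T hT s hs => hT₁ T ((le_max_left _ _).trans hT) s fun j => ⟨(hs j).1, ?_⟩⟩
    have hT1 : 1 ≤ T := (le_max_right _ _).trans hT
    refine (hs j).2.trans ?_
    exact mul_le_mul (le_abs_self C) (R437.Met.Fam.pow_mono (by linarith) hT1) (by positivity) (abs_nonneg C)

end Pool.Agent.N500.LPi
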