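import Pool.Agent.H340R2.LW

/-!
# Polynomials in `π` with algebraic coefficients
-/

set_option autoImplicit false

namespace Pool.Agent.N500.LPi

open Pool.Agent.H340R2.LW

/-- the ring of the numbers `A(π)`, `A` a polynomial with algebraic coefficients -/
noncomputable def Qpi : Subring ℂ := (Algebra.adjoin (algebraicClosure ℚ ℂ) {(Real.pi : ℂ)}).toSubring

theorem mem_Qpi {z : ℂ} : z ∈ Qpi ↔
    ∃ A : Polynomial (algebraicClosure ℚ ℂ), Polynomial.aeval (Real.pi : ℂ) A = z := by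
  unfold Qpi
  rw [Subalgebra.mem_toSubring, Algebra.adjoin_singleton_eq_range_aeval]
  exact Iff.rfl

theorem pi_mem_Qpi : (Real.pi : ℂ) ∈ Qpi := mem_Qpi.2 ⟨Polynomial.X, by simp⟩

theorem alg_mem_Qpi {a : ℂ} (ha : IsAlgebraic ℚ a) : a ∈ Qpi :=
  mem_Qpi.2 ⟨Polynomial.C ⟨a, mem_algebraicClosure_iff.2 ha⟩, by
    rw [Polynomial.aeval_C]
    rfl⟩

theorem inj : Function.Injective (Polynomial.aeval (R := algebraicClosure ℚ ℂ) (Real.pi : ℂ)) := by
  rw [← transcendental_iff_injective]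
  intro h
  have : Algebra.IsAlgebraic ℚ (algebraicClosure ℚ ℂ) := algebraicClosure.isAlgebraic ℚ ℂ
  exact transcendental_pi_complex (h.restrictScalars ℚ)

theorem pi_ne : (Real.pi : ℂ) ≠ 0 := by exact_mod_cast Real.pi_ne_zero

theorem inv_pi_pow (r : ℕ) (hr : 0 < r) : (1 / (Real.pi : ℂ)) ^ r ∉ Qpi := by
  intro h
  obtain ⟨A, hA⟩ := mem_Qpi.1 h
  have h1 : A * Polynomial.X ^ r = 1 := by
    apply inj
    rw [map_mul, hA, map_pow, Polynomial.aeval_X, map_one, ← mul_pow, one_div, inv_mul_cancel₀ pi_ne, one_pow]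
  have h2 := congrArg (Polynomial.eval 0) h1
  rw [Polynomial.eval_mul, Polynomial.eval_pow, Polynomial.eval_X, zero_pow hr.ne', mul_zero,
    Polynomial.eval_one] at h2
  exact zero_ne_one h2

/-- a transcendental number and its inverse are not both polynomials in `π` -/
theorem inv_or {z : ℂ} (hz : Transcendental ℚ z) : z ∉ Qpi ∨ z⁻¹ ∉ Qpi := by
  by_contra h
  rw [not_or, not_not, not_not] at h
  obtain ⟨h1, h2⟩ := h
  obtain ⟨A, hA⟩ := mem_Qpi.1 h1
  obtain ⟨B, hB⟩ := mem_Qpi.1 h2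
  have hz0 : z ≠ 0 := by
    intro h
    rw [h] at hz
    exact hz isAlgebraic_zero
  have h3 : A * B = 1 := by
    apply inj
    rw [map_mul, hA, hB, map_one, mul_inv_cancel₀ hz0]
  obtain ⟨a, -, ha⟩ := Polynomial.isUnit_iff.1 (IsUnit.of_mul_eq_one _ h3)
  apply hz
  rw [← hA, ← ha, Polynomial.aeval_C]
  exact mem_algebraicClosure_iff.1 a.2

theorem mul_pow_inv (z : ℂ) (hz : z ≠ 0) : ∃ r₀ : ℕ, ∀ r : ℕ, r₀ ≤ r → z * (1 / (Real.pi : ℂ)) ^ r ∉ Qpi := by
  by_cases h : ∃ r₁ : ℕ, z * (1 / (Real.pi : ℂ)) ^ r₁ ∈ Qpi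
  · obtain ⟨r₁, h1⟩ := h
    obtain ⟨A, hA⟩ := mem_Qpi.1 h1
    refine ⟨r₁ + A.natDegree + 1, fun r hr h2 => ?_⟩
    obtain ⟨B, hB⟩ := mem_Qpi.1 h2
    obtain ⟨d, rfl⟩ : ∃ d, r = r₁ + d := ⟨r - r₁, by omega⟩
    have h3 : Polynomial.X ^ d * B = A := by
      apply inj
      rw [map_mul, hA, hB, map_pow, Polynomial.aeval_X, pow_add, one_div]
      have h4 : (Real.pi : ℂ) ^ d * (z * ((Real.pi : ℂ)⁻¹ ^ r₁ * (Real.pi : ℂ)⁻¹ ^ d)) =
          z * (Real.pi : ℂ)⁻¹ ^ r₁ * ((Real.pi : ℂ) * (Real.pi : ℂ)⁻¹) ^ d := by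
        rw [mul_pow]
        ring
      rw [h4, mul_inv_cancel₀ pi_ne, one_pow, mul_one]
    have hA0 : A ≠ 0 := by
      intro h4
      rw [h4, map_zero] at hA
      have h5 : (1 / (Real.pi : ℂ)) ^ r₁ ≠ 0 := pow_ne_zero _ (one_div_ne_zero pi_ne)
      exact mul_ne_zero hz h5 hA.symm
    have hB0 : B ≠ 0 := by
      intro h4
      rw [h4, mul_zero] at h3
      exact hA0 h3.symm
    have h4 := congrArg Polynomial.natDegree h3
    rw [Polynomial.natDegree_X_pow_mul (n := d) hB0] at h4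
    omega
  · push Not at h
    exact ⟨0, fun r _ => h r⟩

/-- the powers of a transcendental number are linearly independent over the algebraic numbers -/
theorem lin_pow {z : ℂ} (hz : Transcendental ℚ z) (m : ℕ) :
    LinearIndependent (algebraicClosure ℚ ℂ).toSubfield (fun j : Fin m => z ^ (j : ℕ)) := by
  have hz' : Transcendental (algebraicClosure ℚ ℂ) z := by
    intro h
    have : Algebra.IsAlgebraic ℚ (algebraicClosure ℚ ℂ) := algebraicClosure.isAlgebraic ℚ ℂ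
    exact hz (h.restrictScalars ℚ)
  rw [Fintype.linearIndependent_iff]
  intro g hg j
  have h1 : (∑ i : Fin m, Polynomial.C ((⟨(g i : ℂ), (g i).2⟩ : algebraicClosure ℚ ℂ)) * Polynomial.X ^ (i : ℕ) :
      Polynomial (algebraicClosure ℚ ℂ)) = 0 := by
    apply transcendental_iff_injective.1 hz'
    rw [map_zero, map_sum, ← hg]
    refine Finset.sum_congr rfl fun i _ => ?_
    rw [map_mul, Polynomial.aeval_C, map_pow, Polynomial.aeval_X]
    rfl
  have h2 := congrArg (fun r => Polynomial.coeff r (j : ℕ)) h1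
  simp only [Polynomial.finsetSum_coeff, Polynomial.coeff_C_mul_X_pow, Polynomial.coeff_zero] at h2
  rw [Finset.sum_eq_single j] at h2
  · rw [if_pos rfl] at h2
    exact Subtype.ext (congrArg Subtype.val h2)
  · intro b _ hb
    rw [if_neg (fun h => hb (Fin.ext h.symm))]
  · intro h; exact absurd (Finset.mem_univ _) h

theorem transcendental_inv_pi : Transcendental ℚ (1 / (Real.pi : ℂ)) := by
  intro h
  have h1 := h.inv
  rw [one_div, inv_inv] at h1
  exact transcendental_pi_complex h1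

end Pool.Agent.N500.LPi
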