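import Pool.Agent.N500.LPi.Near
import Pool.Agent.R909.RandSets
import Pool.Agent.R479.DA.Lim

/-!
# Relations between the periods at random points and countably many constants
(the argument of `Pool.Agent.Results.MP_2cf66e_nt.RandomPoints`, with a sequence of constants)
-/

set_option autoImplicit false
set_option linter.unusedSectionVars false

open NumberField Filter Matrix MeasureTheory

namespace Pool.Agent.N500.LPi

open Pool.Agent Pool.Agent.Y890.MV Pool.Agent.Y890.SM Pool.Agent.R349.PC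
open Pool.Agent.Y124 (Cov)

/-- the height of a tuple `s` of elements of `K`: one plus the least natural number `n` such that all
`s j` are quotients of integers of `K` all of whose conjugates have absolute value at most `n` -/
noncomputable def ht {X : Type} {K : Type} [Field K] [NumberField K] (s : X → K) : ℕ :=
  sInf {n : ℕ | ∀ j, Y120.HtLe K (n : ℝ) (s j)} + 1

/-- `s` belongs to the random set `A` with probability at most `C * H (s) ^ (-γ)` -/
def Sparse {Ω X K : Type} [Field K] [NumberField K] [MeasurableSpace Ω] (P : Measure Ω)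
    (A : Ω → Set (X → K)) (γ C : ℝ) : Prop :=
  ∀ s : X → K, P {ω | s ∈ A ω} ≤ ENNReal.ofReal (C * (ht s : ℝ) ^ (-γ))

lemma ht_spec {X : Type} [Fintype X] {K : Type} [Field K] [NumberField K] (s : X → K) (j : X) :
    Y120.HtLe K (ht s : ℝ) (s j) := by
  have h1 : ∀ x : K, ∃ n : ℕ, Y120.HtLe K (n : ℝ) x := by
    intro x
    obtain ⟨a, b, hb, hx⟩ := IsFractionRing.div_surjective (A := 𝓞 K) x
    obtain ⟨n, hn⟩ := exists_nat_ge (max (house (a : K)) (house (b : K)))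
    refine ⟨n, a, b, nonZeroDivisors.ne_zero hb, (le_max_left _ _).trans hn,
      (le_max_right _ _).trans hn, ?_⟩
    rw [← hx]
  choose n hn using h1
  have h2 : ∃ m : ℕ, ∀ j, Y120.HtLe K (m : ℝ) (s j) := by
    refine ⟨Finset.univ.sup fun j => n (s j), fun j => R437.Met.Tors.htLe_mono (hn (s j)) ?_⟩
    have h3 : n (s j) ≤ Finset.univ.sup fun j => n (s j) :=
      Finset.le_sup (f := fun j => n (s j)) (Finset.mem_univ j)
    exact_mod_cast h3
  have h3 : ∀ j, Y120.HtLe K ((sInf {n : ℕ | ∀ j, Y120.HtLe K (n : ℝ) (s j)} : ℕ) : ℝ) (s j) :=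
    Nat.sInf_mem (s := {n : ℕ | ∀ j, Y120.HtLe K (n : ℝ) (s j)}) h2
  refine R437.Met.Tors.htLe_mono (h3 j) ?_
  unfold ht
  push_cast
  linarith

lemma one_le_ht {X K : Type} [Field K] [NumberField K] (s : X → K) : (1 : ℝ) ≤ (ht s : ℝ) := by
  unfold ht
  push_cast
  have : (0 : ℝ) ≤ ((sInf {n : ℕ | ∀ j, Y120.HtLe K (n : ℝ) (s j)} : ℕ) : ℝ) := Nat.cast_nonneg _
  linarith

variable {X : Type} [Fintype X] [DecidableEq X] {ι : Type} [Fintype ι] [DecidableEq ι] {n : ι → ℕ}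

/-- generic points satisfy only the relations of the torsor -/
theorem relOK_of_generic (F : SympFam X n) {K : Type} [Field K] [NumberField K] {io : K →+* ℂ} {f : ℕ → ℂ} {kk : ℕ}
    {T : ℝ} {x : X → ℂ} (hgen : F.Generic kk K io (fun a : Fin kk => f (a : ℕ)) T x) {Λ : Type} [Fintype Λ]
    (idx : Λ → ℕ) (hidx : ∀ v, idx v < kk) {k : ℕ} (hk : k + 1 ≤ kk) (hT1 : 1 ≤ T)
    (hT : ((Fintype.card (Λ × (Ix n → Fin (k + 1))) : ℕ) : ℝ) ≤ T) :
    RelOK F K io k T (fun v => f (idx v)) x := by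
  intro c hc h0 Y hY
  have hTk : ((Fintype.card (Λ × (Ix n → Fin (k + 1))) : ℕ) : ℝ) * T ^ k ≤ T ^ kk := by
    calc ((Fintype.card (Λ × (Ix n → Fin (k + 1))) : ℕ) : ℝ) * T ^ k ≤ T * T ^ k :=
          mul_le_mul_of_nonneg_right hT (by positivity)
      _ = T ^ (k + 1) := by rw [pow_succ']
      _ ≤ T ^ kk := pow_le_pow_right₀ hT1 hk
  obtain ⟨c', hc', hv⟩ := relg (n := n) (k' := kk) (by omega) f idx hidx io hT1 hTk c hc
  have h1 := (hgen c' hc').1 (by rw [hv, h0]) Y hY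
  rw [hv] at h1
  exact h1

theorem exc_mono (F : SympFam X n) (k : ℕ) (K : Type) [Field K] [NumberField K] (io : K →+* ℂ)
    (ξ : Fin k → ℂ) {T T' : ℝ} (hT0 : 0 ≤ T) (hT : T ≤ T') :
    F.Exceptional k K io ξ T ⊆ F.Exceptional k K io ξ T' := by
  rintro s ⟨h1, h2, h3⟩
  exact ⟨fun j => R437.Met.Tors.htLe_mono (h1 j) hT, h2, fun h => h3 fun c hc => h c fun l a φ =>
    (hc l a φ).trans (pow_le_pow_left₀ hT0 hT k)⟩

/-- the number of exceptional points -/
theorem exc_count [Nonempty X] (F : SympFam X n) (k : ℕ) (K : Type) [Field K] [NumberField K]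
    (hK : Module.finrank ℚ K ≤ k) (io : K →+* ℂ) (ξ : Fin k → ℂ) {ε : ℝ} (hε : 0 < ε) :
    ∃ C₁ T₁ : ℝ, 0 ≤ C₁ ∧ 1 ≤ T₁ ∧ ∀ T : ℝ, T₁ ≤ T → (F.Exceptional k K io ξ T).Finite ∧
      ((F.Exceptional k K io ξ T).ncard : ℝ) ≤
        C₁ * T ^ (2 * (Module.finrank ℚ K : ℝ) * ((Fintype.card X : ℝ) - 1) + ε) := by
  classical
  have hk : 0 < k := lt_of_lt_of_le Module.finrank_pos hK
  obtain ⟨D, C, T₀, hC, H⟩ := R958.PN.cover F k hk ε hε
  obtain ⟨C₁, hC₁, hcnt⟩ := R437.Met.Tors.count_le K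
  have hX : 1 ≤ Fintype.card X := Fintype.card_pos
  refine ⟨C * D * C₁ ^ (Fintype.card X - 1), max T₀ 1, by positivity, le_max_right _ _, fun T hT => ?_⟩
  have hT1 : 1 ≤ T := (le_max_right _ _).trans hT
  have hT0 : 0 < T := by linarith
  obtain ⟨h1, h2⟩ := cov_count io {x : K | Y120.HtLe K T x} (Y120.HtLe_fin K T) _
    (fun s hs => hs.1) (H K hK io ξ T ((le_max_left _ _).trans hT))
  refine ⟨h1, ?_⟩
  have h3 : ((⌊C * T ^ ε⌋₊ : ℕ) : ℝ) ≤ C * T ^ ε := Nat.floor_le (by positivity)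
  have h4 : ({x : K | Y120.HtLe K T x}.ncard : ℝ) ^ (Fintype.card X - 1) ≤
      (C₁ * T ^ (2 * Module.finrank ℚ K)) ^ (Fintype.card X - 1) :=
    pow_le_pow_left₀ (Nat.cast_nonneg _) (hcnt T hT1) _
  calc (((F.Exceptional k K io ξ T).ncard : ℕ) : ℝ)
      ≤ ((⌊C * T ^ ε⌋₊ * (D * {x : K | Y120.HtLe K T x}.ncard ^ (Fintype.card X - 1)) : ℕ) : ℝ) := by
        exact_mod_cast h2
    _ = ((⌊C * T ^ ε⌋₊ : ℕ) : ℝ) * (D *
        ({x : K | Y120.HtLe K T x}.ncard : ℝ) ^ (Fintype.card X - 1)) := by push_cast; rfl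
    _ ≤ (C * T ^ ε) * (D * (C₁ * T ^ (2 * Module.finrank ℚ K)) ^ (Fintype.card X - 1)) :=
        mul_le_mul h3 (mul_le_mul_of_nonneg_left h4 (Nat.cast_nonneg _)) (by positivity)
          (by positivity)
    _ = C * D * C₁ ^ (Fintype.card X - 1) *
        (T ^ (2 * (Module.finrank ℚ K : ℝ) * ((Fintype.card X : ℝ) - 1)) * T ^ ε) := by
        rw [mul_pow, ← pow_mul, ← Real.rpow_natCast T (2 * Module.finrank ℚ K * (Fintype.card X - 1))]
        have e : ((2 * Module.finrank ℚ K * (Fintype.card X - 1) : ℕ) : ℝ) =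
            2 * (Module.finrank ℚ K : ℝ) * ((Fintype.card X : ℝ) - 1) := by
          push_cast [Nat.cast_sub hX]
          ring
        rw [e]
        ring
    _ = C * D * C₁ ^ (Fintype.card X - 1) *
        T ^ (2 * (Module.finrank ℚ K : ℝ) * ((Fintype.card X : ℝ) - 1) + ε) := by
        rw [← Real.rpow_add hT0]

/-- the exceptional members over a random set -/
theorem random_exc [Nonempty X] (F : SympFam X n) (k : ℕ) (K : Type) [Field K] [NumberField K]
    (hK : Module.finrank ℚ K ≤ k) (io : K →+* ℂ) (ξ : Fin k → ℂ) {γ η : ℝ} (hη : 0 ≤ η)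
    (hγ : 2 * (Module.finrank ℚ K : ℝ) * ((Fintype.card X : ℝ) - 1) + η < γ) {Ω : Type} [MeasurableSpace Ω]
    {P : Measure Ω} {A : Ω → Set (X → K)} {C : ℝ} (hA : Sparse P A γ C) :
    (∀ᵐ ω ∂P, {s : X → K | s ∈ F.Exceptional k K io ξ (ht s : ℝ) ∧ s ∈ A ω}.Finite) ∧
    ∃ B : ℝ, ∀ y : ℝ, 1 ≤ y → P {ω | ∃ s : X → K, s ∈ F.Exceptional k K io ξ (ht s : ℝ) ∧ y ≤ (ht s : ℝ) ∧
      s ∈ A ω} ≤ ENNReal.ofReal (B * y ^ (-η)) := by
  classical
  obtain ⟨g, hg⟩ : ∃ g : ℝ, g = 2 * (Module.finrank ℚ K : ℝ) * ((Fintype.card X : ℝ) - 1) :=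
    ⟨_, rfl⟩
  have hm1 : (1 : ℝ) ≤ (Fintype.card X : ℝ) := by exact_mod_cast Fintype.card_pos
  have hg0 : 0 ≤ g := by
    rw [hg]
    exact mul_nonneg (by positivity) (by linarith)
  rw [← hg] at hγ
  obtain ⟨δ, hδ⟩ : ∃ δ : ℝ, δ = γ - η - g := ⟨_, rfl⟩
  have hδ0 : 0 < δ := by linarith
  obtain ⟨C₁, T₁, hC₁, hT₁, hc⟩ := exc_count F k K hK io ξ (ε := δ / 2) (by linarith)
  rw [← hg] at hc
  obtain ⟨hf2, -⟩ := hc T₁ le_rfl
  have hsum : Summable fun s : {s : X → K // s ∈ F.Exceptional k K io ξ (ht s : ℝ)} =>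
      ((ht s.1 : ℕ) : ℝ) ^ (-(g + δ)) := by
    refine Pool.Agent.R479.DA.summable_heights
      (fun s : {s : X → K // s ∈ F.Exceptional k K io ξ (ht s : ℝ)} => ((ht s.1 : ℕ) : ℝ))
      (fun s => one_le_ht s.1) (s := g + δ / 2) (p := g + δ)
      (C := C₁ + ((F.Exceptional k K io ξ T₁).ncard : ℝ))
      (by linarith) (by linarith) (fun Y hY => ?_)
    have hY1 : 1 ≤ Y ^ (g + δ / 2) := Real.one_le_rpow hY (by linarith)
    have h6 : (0 : ℝ) ≤ ((F.Exceptional k K io ξ T₁).ncard : ℝ) := Nat.cast_nonneg _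
    have hmaps : ∀ T : ℝ, Y ≤ T → Set.MapsTo Subtype.val
        {s : {s : X → K // s ∈ F.Exceptional k K io ξ (ht s : ℝ)} | ((ht s.1 : ℕ) : ℝ) ≤ Y}
        (F.Exceptional k K io ξ T) := by
      intro T hT s hs
      exact exc_mono F k K io ξ (by linarith [one_le_ht s.1]) (le_trans hs hT) s.2
    have hinj : Set.InjOn Subtype.val
        {s : {s : X → K // s ∈ F.Exceptional k K io ξ (ht s : ℝ)} | ((ht s.1 : ℕ) : ℝ) ≤ Y} :=
      Subtype.val_injective.injOn
    by_cases h1 : T₁ ≤ Y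
    · obtain ⟨h2, h3⟩ := hc Y h1
      refine ⟨h2.of_injOn (hmaps Y le_rfl) hinj, ?_⟩
      have h4 := Set.ncard_le_ncard_of_injOn _ (hmaps Y le_rfl) hinj h2
      have h5 := le_trans (Nat.cast_le (α := ℝ).2 h4) h3
      refine h5.trans (mul_le_mul_of_nonneg_right (by linarith) (by linarith))
    · push Not at h1
      refine ⟨hf2.of_injOn (hmaps T₁ h1.le) hinj, ?_⟩
      have h4 := Set.ncard_le_ncard_of_injOn _ (hmaps T₁ h1.le) hinj hf2
      have h5 := Nat.cast_le (α := ℝ).2 h4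
      refine h5.trans ?_
      calc ((F.Exceptional k K io ξ T₁).ncard : ℝ) ≤ C₁ + ((F.Exceptional k K io ξ T₁).ncard : ℝ) := by
            linarith
        _ = (C₁ + ((F.Exceptional k K io ξ T₁).ncard : ℝ)) * 1 := (mul_one _).symm
        _ ≤ _ := mul_le_mul_of_nonneg_left hY1 (by linarith)
  exact Pool.Agent.R909.RS.single (P := P)
    (nm := fun s : X → K => (ht s : ℝ)) (A := A) (γ := γ) (C := C) (fun x _ => hA x)
    (Q := fun s => s ∈ F.Exceptional k K io ξ (ht s : ℝ))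
    (H := fun s => ((ht s : ℕ) : ℝ))
    (fun z _ => one_le_ht z) (u := fun z => z) (K := 1) one_pos
    (fun z _ => by rw [one_mul]) (by linarith) (p := g + δ) (η := η)
    hη (by linarith) hsum

theorem ht_finite (K : Type) [Field K] [NumberField K] (M : ℝ) : {s : X → K | (ht s : ℝ) ≤ M}.Finite := by
  refine (Set.Finite.pi' (fun _ : X => Y120.HtLe_fin K M)).subset ?_
  intro s hs j
  exact R437.Met.Tors.htLe_mono (ht_spec s j) hs

end Pool.Agent.N500.LPi
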